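import Pool.Agent.Helper24.GoodLabeling.Proof

set_option autoImplicit false

namespace Pool.Agent.Results.MP_67e79f_co.NoTreewidthBound

open Pool.Agent.Helper24.GoodLabeling

/-- **Negative answer to the question.** For some `k ≤ 3` the good graphs of treewidth `k` need
arbitrarily many distinct labels: for every `c` there is a good (finite) graph of treewidth `k`
that is not `c`-good. -/
theorem result : ∃ k : ℕ, k ≤ 3 ∧ ∀ c : ℕ, ∃ (V : Type) (_ : Fintype V) (G : SimpleGraph V),
    treewidth G = k ∧ IsGood G ∧ ¬ IsCGood G c := by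
  by_contra hcon
  push Not at hcon
  -- for every `k ≤ 3` some `c` works
  choose! c hc using hcon
  have hmono : ∀ {V : Type} (G : SimpleGraph V) (a b : ℕ), a ≤ b → IsCGood G a → IsCGood G b := by
    rintro V G a b hab ⟨l, h1, h2⟩
    exact ⟨l, h1, h2.trans (by exact_mod_cast hab)⟩
  set C := c 0 + c 1 + c 2 + c 3 with hC
  have htw := Vx.treewidth_graph_le (2 * (C + 2) + 1)
  have hgood : IsGood (Vx.graph (2 * (C + 2) + 1)) := ⟨_, Vx.graph_good _⟩
  have h := hc _ htw (Vx (2 * (C + 2) + 1)) inferInstance (Vx.graph (2 * (C + 2) + 1)) rfl hgood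
  refine Vx.not_cgood C (hmono _ _ _ ?_ h)
  generalize treewidth (Vx.graph (2 * (C + 2) + 1)) = t at htw
  interval_cases t <;> omega

end Pool.Agent.Results.MP_67e79f_co.NoTreewidthBound
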